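import Pool.Agent.helper5.SYM.SpecB

/-!
# MP_45d809_mp, row ZPF: the state sum as a sum over functions
-/

set_option autoImplicit false

namespace Pool.Agent.SYM
open Finset CT Polynomial

theorem ZPF_congr {V : Type} [DecidableEq V] (L : List V) (t t' : V → Fin 3) :
    ∀ e : V × Fin 4 → V × Fin 4, (∀ w ∈ L, t w = t' w) → lps L e t = lps L e t' := by
  induction L with
  | nil =>
    intro e _
    rfl
  | cons u L ih =>
    intro e h
    have h1 : t u = t' u := h u List.mem_cons_self
    show ls e u (t u) + lps L (sm e u (t u)) t = ls e u (t' u) + lps L (sm e u (t' u)) t'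
    rw [h1, ih _ (fun w hw => h w (List.mem_cons_of_mem _ hw))]

theorem ZPF_mem {V : Type} [Fintype V] [DecidableEq V] (S : Finset V) (t : V → Fin 3) :
    t ∈ pf S ↔ ∀ w, w ∉ S → t w = 0 := by
  unfold pf
  rw [Fintype.mem_piFinset]
  constructor
  · intro h w hw
    have := h w
    rw [if_neg hw] at this
    exact Finset.mem_singleton.1 this
  · intro h w
    by_cases hw : w ∈ S
    · rw [if_pos hw]
      exact Finset.mem_univ _
    · rw [if_neg hw]
      exact Finset.mem_singleton.2 (h w hw)

theorem ZPF : ZPF_stmt := by
  intro V _ _ x L
  induction L with
  | nil =>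
    intro e _
    have h1 : pf (([] : List V).toFinset) = {fun _ => 0} := by
      ext t
      rw [ZPF_mem, Finset.mem_singleton]
      constructor
      · intro h
        funext w
        exact h w (by simp)
      · rintro rfl w _
        rfl
    rw [h1, Finset.sum_singleton]
    show (1 : ℤ) = x ^ 0
    rw [pow_zero]
  | cons u L ih =>
    intro e hL
    obtain ⟨huL, hL'⟩ := List.nodup_cons.1 hL
    show (∑ s : Fin 3, x ^ ls e u s * Z x L (sm e u s)) = _
    have h1 : ∀ s : Fin 3, x ^ ls e u s * Z x L (sm e u s) =
        ∑ t ∈ pf L.toFinset, x ^ (ls e u s + lps L (sm e u s) t) := by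
      intro s
      rw [ih (sm e u s) hL', Finset.mul_sum]
      refine Finset.sum_congr rfl (fun t _ => ?_)
      rw [pow_add]
    rw [Finset.sum_congr rfl (fun s _ => h1 s), ← Finset.sum_product']
    refine Finset.sum_bij' (fun p _ => Function.update p.2 u p.1)
      (fun t _ => (t u, Function.update t u 0)) ?_ ?_ ?_ ?_ ?_
    · rintro ⟨s, t⟩ h
      have h2 := (ZPF_mem _ _).1 (Finset.mem_product.1 h).2
      rw [ZPF_mem]
      intro w hw
      have hwu : w ≠ u := by
        rintro rfl
        exact hw (by simp)
      have hwL : w ∉ L.toFinset := by
        intro h3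
        exact hw (by
          rw [List.toFinset_cons]
          exact Finset.mem_insert_of_mem h3)
      show Function.update t u s w = 0
      rw [Function.update_of_ne hwu]
      exact h2 w hwL
    · intro t h
      have h2 := (ZPF_mem _ _).1 h
      rw [Finset.mem_product]
      refine ⟨Finset.mem_univ _, ?_⟩
      rw [ZPF_mem]
      intro w hw
      show Function.update t u 0 w = 0
      by_cases hwu : w = u
      · rw [hwu, Function.update_self]
      · rw [Function.update_of_ne hwu]
        refine h2 w ?_
        rw [List.toFinset_cons, Finset.mem_insert, not_or]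
        exact ⟨hwu, hw⟩
    · rintro ⟨s, t⟩ h
      have h2 := (ZPF_mem _ _).1 (Finset.mem_product.1 h).2
      have h3 : t u = 0 := h2 u (by
        rw [List.mem_toFinset]
        exact huL)
      show (Function.update t u s u, Function.update (Function.update t u s) u 0) = (s, t)
      rw [Function.update_self, Function.update_idem]
      have h4 : Function.update t u 0 = t := by
        rw [← h3]
        exact Function.update_eq_self u t
      rw [h4]
    · intro t _
      show Function.update (Function.update t u 0) u (t u) = t
      rw [Function.update_idem]
      exact Function.update_eq_self u t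
    · rintro ⟨s, t⟩ _
      show x ^ (ls e u s + lps L (sm e u s) t) =
        x ^ (ls e u (Function.update t u s u) +
          lps L (sm e u (Function.update t u s u)) (Function.update t u s))
      rw [Function.update_self]
      rw [ZPF_congr L (Function.update t u s) t]
      intro w hw
      rw [Function.update_of_ne]
      rintro rfl
      exact huL hw

end Pool.Agent.SYM
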